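import Mathlib

open MeasureTheory Set Filter Topology Real

namespace Pool.Agent.Results.MP_4601b9_an.No

/-- Condition (C): a measurable weight bounded between two positive constants a.e. -/
def IsWeight (a : ℝ → ℝ) : Prop :=
  Measurable a ∧ ∃ a₀ A₀ : ℝ, 0 < a₀ ∧ a₀ ≤ A₀ ∧ ∀ᵐ x : ℝ, a₀ ≤ a x ∧ a x ≤ A₀

/-- Test functions: smooth with compact support. -/
def IsTest (ψ : ℝ → ℝ) : Prop := ContDiff ℝ (⊤ : ℕ∞) ψ ∧ HasCompactSupport ψ

/-- `g` is the distributional derivative of `φ` on `ℝ`. -/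
def IsWeakDeriv (φ g : ℝ → ℝ) : Prop :=
  ∀ ψ, IsTest ψ → ∫ x, φ x * deriv ψ x = -∫ x, g x * ψ x

/-- `φ` is a continuous element of the homogeneous Sobolev space (its distributional derivative
`g` is in `L²`) and solves `(a φ')' + a sin φ cos φ = 0` in distributions on `ℝ \ {0}`. -/
def SolvesE (a φ : ℝ → ℝ) : Prop :=
  Continuous φ ∧ ∃ g : ℝ → ℝ, MemLp g 2 volume ∧ IsWeakDeriv φ g ∧
    ∀ ψ, IsTest ψ → (0 : ℝ) ∉ tsupport ψ →
      -(∫ x, a x * g x * deriv ψ x) + ∫ x, a x * sin (φ x) * cos (φ x) * ψ x = 0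

/-- The constraints (K). -/
def Constraints (φ : ℝ → ℝ) : Prop :=
  φ 0 = 0 ∧ Tendsto φ atTop (𝓝 (π / 2)) ∧ Tendsto φ atBot (𝓝 (-(π / 2)))

noncomputable def c (x : ℝ) : ℝ := max (-π) (min x π)
noncomputable def t (x : ℝ) : ℝ := x - c x
noncomputable def q (x : ℝ) : ℝ := -sin (c x) + sinh (t x)
noncomputable def aa (x : ℝ) : ℝ := 1 + sin (c x) ^ 2
noncomputable def ph (x : ℝ) : ℝ := arctan (q x)
noncomputable def p (x : ℝ) : ℝ := -cos (c x) / cosh (t x)

lemma cont_c : Continuous c := by unfold c; fun_prop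
lemma cont_t : Continuous t := by unfold t; exact continuous_id.sub cont_c
lemma cont_q : Continuous q := by
  unfold q; exact (continuous_sin.comp cont_c).neg.add (continuous_sinh.comp cont_t)
lemma cont_aa : Continuous aa := by
  unfold aa; exact continuous_const.add ((continuous_sin.comp cont_c).pow 2)
lemma cont_ph : Continuous ph := continuous_arctan.comp cont_q
lemma cont_p : Continuous p := by
  unfold p
  exact (continuous_cos.comp cont_c).neg.div (continuous_cosh.comp cont_t)
    (fun x => (cosh_pos _).ne')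
lemma aa_ge (x : ℝ) : 1 ≤ aa x := by unfold aa; nlinarith [sq_nonneg (sin (c x))]
lemma aa_le (x : ℝ) : aa x ≤ 2 := by unfold aa; nlinarith [sin_sq_le_one (c x)]

lemma c_mid {x : ℝ} (h1 : -π ≤ x) (h2 : x ≤ π) : c x = x := by
  unfold c; rw [min_eq_left h2, max_eq_right h1]
lemma c_hi {x : ℝ} (h : π ≤ x) : c x = π := by
  unfold c; rw [min_eq_right h, max_eq_right (by linarith [pi_pos])]
lemma c_lo {x : ℝ} (h : x ≤ -π) : c x = -π := by
  unfold c; rw [min_eq_left (by linarith [pi_pos]), max_eq_left h]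

lemma sc_arctan (y : ℝ) : sin (arctan y) * cos (arctan y) = y / (1 + y ^ 2) := by
  rw [sin_arctan, cos_arctan]
  have h : 0 < 1 + y ^ 2 := by positivity
  have h2 : √(1 + y ^ 2) * √(1 + y ^ 2) = 1 + y ^ 2 := Real.mul_self_sqrt h.le
  rw [div_mul_div_comm, h2, mul_one]

/-- outer region -/
lemma outer (s : ℝ) (hs : sin s = 0) (hc : cos s = -1) {x : ℝ} (hx : ∀ᶠ y in 𝓝 x, c y = s) :
    HasDerivAt ph (p x / aa x) x ∧ HasDerivAt p (-(aa x * sin (ph x) * cos (ph x))) x := by
  have hx0 : c x = s := hx.self_of_nhds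
  have hch : cosh (x - s) ≠ 0 := (cosh_pos _).ne'
  have hsq : 1 + sinh (x - s) ^ 2 = cosh (x - s) ^ 2 := by rw [cosh_sq]; ring
  have hd : HasDerivAt (fun y => y - s) 1 x := (hasDerivAt_id x).sub_const s
  constructor
  · have e : ph =ᶠ[𝓝 x] fun y => arctan (sinh (y - s)) := by
      filter_upwards [hx] with y hy
      simp [ph, q, t, hy, hs]
    refine HasDerivAt.congr_of_eventuallyEq ?_ e
    refine hd.sinh.arctan.congr_deriv ?_
    simp only [p, aa, t, hx0, hs, hc]
    rw [hsq]; field_simp; ring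
  · have e : p =ᶠ[𝓝 x] fun y => (cosh (y - s))⁻¹ := by
      filter_upwards [hx] with y hy
      simp [p, t, hy, hc]
    refine HasDerivAt.congr_of_eventuallyEq ?_ e
    refine (hd.cosh.inv hch).congr_deriv ?_
    rw [mul_assoc, ph, sc_arctan]
    simp only [q, aa, t, hx0, hs]
    simp only [neg_zero, zero_add]
    rw [hsq]; field_simp; ring

lemma inner {x : ℝ} (hx : ∀ᶠ y in 𝓝 x, c y = y) :
    HasDerivAt ph (p x / aa x) x ∧ HasDerivAt p (-(aa x * sin (ph x) * cos (ph x))) x := by
  have hx0 : c x = x := hx.self_of_nhds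
  have hpos : 1 + sin x ^ 2 ≠ 0 := by positivity
  constructor
  · have e : ph =ᶠ[𝓝 x] fun y => arctan (-sin y) := by
      filter_upwards [hx] with y hy
      simp [ph, q, t, hy]
    refine HasDerivAt.congr_of_eventuallyEq ?_ e
    refine (hasDerivAt_sin x).neg.arctan.congr_deriv ?_
    simp only [p, aa, t, hx0, sub_self, cosh_zero, Pi.neg_apply, neg_sq]
    field_simp
  · have e : p =ᶠ[𝓝 x] fun y => -cos y := by
      filter_upwards [hx] with y hy
      simp [p, t, hy]
    refine HasDerivAt.congr_of_eventuallyEq ?_ e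
    refine (hasDerivAt_cos x).neg.congr_deriv ?_
    rw [mul_assoc, ph, sc_arctan]
    simp only [q, aa, t, hx0, sub_self, sinh_zero, add_zero, neg_sq]
    field_simp

lemma off {x : ℝ} (h1 : x ≠ π) (h2 : x ≠ -π) :
    HasDerivAt ph (p x / aa x) x ∧ HasDerivAt p (-(aa x * sin (ph x) * cos (ph x))) x := by
  rcases lt_or_gt_of_ne h1 with h | h
  · rcases lt_or_gt_of_ne h2 with h' | h'
    · refine outer (-π) (by simp) (by simp) ?_
      filter_upwards [Iio_mem_nhds h'] with y hy using c_lo (le_of_lt hy)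
    · refine inner ?_
      filter_upwards [Ioo_mem_nhds h' h] with y hy using c_mid hy.1.le hy.2.le
  · refine outer π (by simp) (by simp) ?_
    filter_upwards [Ioi_mem_nhds h] with y hy using c_hi (le_of_lt hy)

lemma glue {F G : ℝ → ℝ} (hF : Continuous F) (hG : Continuous G)
    (h : ∀ x, x ≠ π → x ≠ -π → HasDerivAt F (G x) x) (x : ℝ) : HasDerivAt F (G x) x := by
  have e : F = fun y => F 0 + ∫ s in (0 : ℝ)..y, G s := by
    funext y
    rw [integral_eq_of_hasDerivAt_off_countable F G (s := {π, -π}) (by simp) hF.continuousOn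
      (fun z hz => h z (fun e => hz.2 (by simp [e])) (fun e => hz.2 (by simp [e])))
      (hG.intervalIntegrable _ _)]
    ring
  rw [e]
  exact ((hG.integral_hasStrictDerivAt 0 x).hasDerivAt).const_add _

lemma parts {F G : ℝ → ℝ} (hG : Continuous G) (h : ∀ x, HasDerivAt F (G x) x)
    {ψ : ℝ → ℝ} (hψ : IsTest ψ) : ∫ x, F x * deriv ψ x = -∫ x, G x * ψ x := by
  have hF : Continuous F := continuous_iff_continuousAt.2 fun x => (h x).continuousAt
  have hd : Differentiable ℝ ψ := hψ.1.differentiable (by simp)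
  have hc : Continuous (deriv ψ) := hψ.1.continuous_deriv (by simp)
  refine integral_mul_deriv_eq_deriv_mul_of_integrable (fun x _ => h x)
    (fun x _ => (hd x).hasDerivAt) ?_ ?_ ?_
  · exact (hF.mul hc).integrable_of_hasCompactSupport hψ.2.deriv.mul_left
  · exact (hG.mul hd.continuous).integrable_of_hasCompactSupport hψ.2.mul_left
  · exact (hF.mul hd.continuous).integrable_of_hasCompactSupport hψ.2.mul_left

lemma g_bound (x : ℝ) : (p x / aa x) ^ 2 ≤ 33 * (1 + x ^ 2)⁻¹ := by
  have h1 := aa_ge x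
  have hc : |c x| ≤ 4 := by
    have : π ≤ 4 := pi_le_four
    rw [abs_le]; unfold c
    constructor
    · exact le_trans (by linarith) (le_max_left _ _)
    · exact max_le (by linarith [pi_pos]) (le_trans (min_le_right _ _) this)
  have hs : t x ^ 2 ≤ sinh (t x) ^ 2 := by
    rw [← sq_abs (t x), ← sq_abs (sinh (t x)), abs_sinh]
    exact pow_le_pow_left₀ (abs_nonneg _) (self_le_sinh_iff.2 (abs_nonneg _)) 2
  have hch : 1 + t x ^ 2 ≤ cosh (t x) ^ 2 := by rw [cosh_sq]; linarith
  have hx : x = t x + c x := by unfold t; ring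
  have hc2 : c x ^ 2 ≤ 16 := by
    rw [← sq_abs]; nlinarith [abs_nonneg (c x)]
  have hx2 : 1 + x ^ 2 ≤ 33 * cosh (t x) ^ 2 := by
    have : x ^ 2 ≤ 2 * t x ^ 2 + 2 * c x ^ 2 := by
      conv_lhs => rw [hx]
      nlinarith [sq_nonneg (t x - c x)]
    nlinarith [sq_nonneg (t x)]
  have hpos : 0 < cosh (t x) := cosh_pos _
  have hcos : cos (c x) ^ 2 ≤ 1 := cos_sq_le_one _
  rw [← div_eq_mul_inv, div_pow, p, div_pow, neg_sq, div_div,
    div_le_div_iff₀ (by positivity) (by positivity)]
  have ha2 : 1 ≤ aa x ^ 2 := by nlinarith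
  have : cosh (t x) ^ 2 ≤ cosh (t x) ^ 2 * aa x ^ 2 := by nlinarith [sq_nonneg (cosh (t x))]
  nlinarith [sq_nonneg x]

theorem result : ∃ a φ : ℝ → ℝ, IsWeight a ∧ Continuous a ∧ SolvesE a φ ∧ Constraints φ ∧
    ∃ x : ℝ, 0 < x ∧ φ x < 0 ∧ 0 < φ (-x) := by
  have hane : ∀ x, aa x ≠ 0 := fun x => by linarith [aa_ge x]
  have hg : Continuous fun x => p x / aa x := cont_p.div cont_aa hane
  have hh : Continuous fun x => -(aa x * sin (ph x) * cos (ph x)) :=
    ((cont_aa.mul (continuous_sin.comp cont_ph)).mul (continuous_cos.comp cont_ph)).neg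
  have d1 := glue cont_ph hg (fun x h1 h2 => (off h1 h2).1)
  have d2 := glue cont_p hh (fun x h1 h2 => (off h1 h2).2)
  refine ⟨aa, ph, ⟨cont_aa.measurable, 1, 2, one_pos, by norm_num,
    Eventually.of_forall fun x => ⟨aa_ge x, aa_le x⟩⟩, cont_aa,
    ⟨cont_ph, fun x => p x / aa x, ?_, fun ψ hψ => parts hg d1 hψ, fun ψ hψ _ => ?_⟩,
    ⟨?_, ?_, ?_⟩, π / 2, by positivity, ?_, ?_⟩
  · rw [memLp_two_iff_integrable_sq hg.aestronglyMeasurable]
    refine (integrable_inv_one_add_sq.const_mul 33).mono' (hg.pow 2).aestronglyMeasurable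
      (Eventually.of_forall fun x => ?_)
    rw [Real.norm_eq_abs, abs_of_nonneg (sq_nonneg _)]
    exact g_bound x
  · have e : (fun x => aa x * (p x / aa x) * deriv ψ x) = fun x => p x * deriv ψ x := by
      funext x; rw [mul_div_cancel₀ _ (hane x)]
    rw [e, parts hh d2 hψ]
    simp only [neg_mul, integral_neg, neg_neg]
    ring
  · simp [ph, q, t, c_mid (x := 0) (by linarith [pi_pos]) pi_pos.le]
  · have h1 : Tendsto q atTop atTop := by
      have : Tendsto (fun x => x - π) atTop atTop := tendsto_atTop_add_const_right _ _ tendsto_id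
      refine tendsto_atTop_mono' _ ?_ this
      filter_upwards [eventually_ge_atTop π] with x hx
      simp only [q, t, c_hi hx, sin_pi, neg_zero, zero_add]
      exact self_le_sinh_iff.2 (by linarith)
    exact (tendsto_arctan_atTop.mono_right nhdsWithin_le_nhds).comp h1
  · have h1 : Tendsto q atBot atBot := by
      have : Tendsto (fun x => x + π) atBot atBot := tendsto_atBot_add_const_right _ _ tendsto_id
      refine tendsto_atBot_mono' _ ?_ this
      filter_upwards [eventually_le_atBot (-π)] with x hx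
      simp only [q, t, c_lo hx, sin_neg, sin_pi, neg_zero, zero_add, sub_neg_eq_add]
      exact sinh_le_self_iff.2 (by linarith)
    exact (tendsto_arctan_atBot.mono_right nhdsWithin_le_nhds).comp h1
  · have : c (π / 2) = π / 2 := c_mid (by linarith [pi_pos]) (by linarith [pi_pos])
    simp only [ph, q, t, this, sin_pi_div_two, sub_self, sinh_zero, add_zero]
    rw [arctan_neg, arctan_one]; linarith [pi_pos]
  · have : c (-(π / 2)) = -(π / 2) := c_mid (by linarith [pi_pos]) (by linarith [pi_pos])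
    simp only [ph, q, t, this, sin_neg, sin_pi_div_two, sub_self, sinh_zero, add_zero, neg_neg]
    rw [arctan_one]; linarith [pi_pos]

end Pool.Agent.Results.MP_4601b9_an.No
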